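import Pool.Agent.Y362.CH.PlG
import Pool.Agent.Y706.CH.Stm

/-!
# CH-PD: the heights given by the places and by the degrees of field extensions are comparable
(helper362)
-/

namespace Pool.Agent.Y362.CH

open Polynomial Pool.Agent.W277.UB Finset

universe u v w

section Ext

variable {k : Type v} {K : Type u} [Field k] [Field K] [Algebra k K]

/-- common denominators in `k(x)` -/
lemma clear (x : K) (d : ℕ) (a : ℕ → K) (ha : ∀ i, a i ∈ IntermediateField.adjoin k {x}) :
    ∃ (s : k[X]) (c : ℕ → k[X]), aeval x s ≠ 0 ∧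
      ∀ i ∈ range (d + 1), aeval x (c i) = aeval x s * a i := by
  classical
  have h1 : ∀ i, ∃ r s : k[X], aeval x s ≠ 0 ∧ aeval x r = aeval x s * a i := by
    intro i
    obtain ⟨r, s, h⟩ := (IntermediateField.mem_adjoin_simple_iff k (a i)).1 (ha i)
    by_cases hs : aeval x s = 0
    · exact ⟨0, 1, by simp, by rw [h, hs]; simp⟩
    · refine ⟨r, s, hs, ?_⟩
      rw [h]
      field_simp
  choose r s hs hr using h1
  refine ⟨∏ i ∈ range (d + 1), s i, fun i => r i * ∏ j ∈ (range (d + 1)).erase i, s j, ?_, ?_⟩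
  · rw [map_prod, Finset.prod_ne_zero_iff]
    exact fun i _ => hs i
  · intro i hi
    rw [map_mul, hr, ← Finset.mul_prod_erase _ _ hi, map_mul]
    ring

/-- the equation of `t` over `k(x)`, without denominators -/
lemma exists_rel (x t : K) [FiniteDimensional (IntermediateField.adjoin k {x}) K] :
    ∃ (P : ℕ → k[X]) (J : ℕ),
      (∀ j, (P j).natDegree ≤ Module.finrank (IntermediateField.adjoin k {x}) K) ∧
      ∑ j ∈ range (J + 1), aeval t (P j) * x ^ j = 0 ∧ ∃ j ≤ J, P j ≠ 0 := by
  classical
  set m := minpoly (IntermediateField.adjoin k {x}) t with hm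
  have hint : IsIntegral (IntermediateField.adjoin k {x}) t := IsIntegral.of_finite _ t
  set d := m.natDegree with hd
  have hdle : d ≤ Module.finrank (IntermediateField.adjoin k {x}) K := minpoly.natDegree_le t
  obtain ⟨s, c, hs, hc⟩ := clear x d (fun i => ((m.coeff i : IntermediateField.adjoin k {x}) : K))
    (fun i => (m.coeff i).2)
  set J := (range (d + 1)).sup (fun i => (c i).natDegree) with hJ
  have hcJ : ∀ i ∈ range (d + 1), (c i).natDegree < J + 1 := fun i hi =>
    Nat.lt_succ_of_le (Finset.le_sup (f := fun i => (c i).natDegree) hi)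
  refine ⟨fun j => ∑ i ∈ range (d + 1), C ((c i).coeff j) * X ^ i, J, fun j => ?_, ?_, ?_⟩
  · refine (natDegree_sum_le_of_forall_le _ _ fun i hi => ?_).trans hdle
    refine (natDegree_C_mul_X_pow_le _ _).trans ?_
    rw [Finset.mem_range] at hi
    omega
  · have h1 : ∀ j, aeval t (∑ i ∈ range (d + 1), C ((c i).coeff j) * X ^ i) * x ^ j =
        ∑ i ∈ range (d + 1), t ^ i * ((c i).coeff j • x ^ j) := by
      intro j
      rw [map_sum, Finset.sum_mul]
      refine Finset.sum_congr rfl fun i _ => ?_
      rw [map_mul, aeval_C, map_pow, aeval_X, Algebra.smul_def]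
      ring
    simp only [h1]
    rw [Finset.sum_comm]
    have h2 : ∀ i ∈ range (d + 1), ∑ j ∈ range (J + 1), t ^ i * ((c i).coeff j • x ^ j) =
        aeval x s * (((m.coeff i : IntermediateField.adjoin k {x}) : K) * t ^ i) := by
      intro i hi
      rw [← Finset.mul_sum, ← aeval_eq_sum_range' (hcJ i hi), hc i hi]
      ring
    rw [Finset.sum_congr rfl h2, ← Finset.mul_sum]
    have h3 : aeval t m = 0 := minpoly.aeval _ _
    rw [aeval_eq_sum_range] at h3
    have h4 : ∑ i ∈ range (d + 1), ((m.coeff i : IntermediateField.adjoin k {x}) : K) * t ^ i =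
        ∑ i ∈ range (m.natDegree + 1), m.coeff i • t ^ i := by
      refine Finset.sum_congr rfl fun i _ => ?_
      rw [Algebra.smul_def]
      rfl
    rw [h4, h3, mul_zero]
  · have h1 : aeval x (c d) ≠ 0 := by
      rw [hc d (Finset.self_mem_range_succ d)]
      have h2 : m.coeff d = 1 := minpoly.monic hint
      rw [h2]
      simpa using hs
    have h2 : c d ≠ 0 := by
      intro h
      rw [h, map_zero] at h1
      exact h1 rfl
    refine ⟨(c d).natDegree, Nat.le_of_lt_succ (hcJ d (Finset.self_mem_range_succ d)), fun h => ?_⟩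
    have h3 := congrArg (fun p => coeff p d) h
    simp only [finsetSum_coeff, coeff_C_mul_X_pow, coeff_zero, Finset.sum_ite_eq,
      Finset.self_mem_range_succ, if_true] at h3
    exact h2 (leadingCoeff_eq_zero.1 h3)

end Ext

section Root

variable {k : Type v} {K : Type u} [Field k] [Field K] [Algebra k K] (Q : PlaceData.{w} k K)

/-- the bound for the poles of a root -/
lemma root_bound (x t : K) (ht : ∀ p : k[X], aeval t p = 0 → p = 0) (P : ℕ → k[X]) (J h : ℕ)
    (hd : ∀ j, (P j).natDegree ≤ h) (hrel : ∑ j ∈ range (J + 1), aeval t (P j) * x ^ j = 0)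
    (hne : ∃ j ≤ J, P j ≠ 0) :
    ∃ y : K, y ≠ 0 ∧ ∀ v, Q.pole v x ≤ Q.ord v y + h * Q.pole v t := by
  classical
  set e := Nat.findGreatest (fun j => P j ≠ 0) J with he
  obtain ⟨j0, hj0, hPj0⟩ := hne
  have hPe : P e ≠ 0 := Nat.findGreatest_spec (P := fun j => P j ≠ 0) hj0 hPj0
  have heJ : e ≤ J := Nat.findGreatest_le _
  have hgt : ∀ j, e < j → j ≤ J → P j = 0 := by
    intro j h1 h2
    by_contra h3
    exact Nat.findGreatest_is_greatest h1 h2 h3
  have hrel' : ∑ j ∈ range (e + 1), aeval t (P j) * x ^ j = 0 := by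
    rw [← hrel]
    apply Finset.sum_subset
    · exact Finset.range_mono (by omega)
    · intro j hj hj'
      rw [Finset.mem_range] at hj hj'
      rw [hgt j (by omega) (by omega), map_zero, zero_mul]
  have hy0 : aeval t (P e) ≠ 0 := fun h => hPe (ht _ h)
  refine ⟨aeval t (P e), hy0, fun v => ?_⟩
  have hτ := PlaceData.pole_nonneg (Q := Q) v t
  have hG : ∀ j, Q.G v (-(h * Q.pole v t)) (aeval t (P j)) := by
    intro j
    rw [aeval_eq_sum_range' (n := h + 1) (by have := hd j; omega)]
    refine PlaceData.G_sum _ _ fun i hi => ?_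
    refine PlaceData.G_smul _ (PlaceData.G_mono (PlaceData.G_pow (PlaceData.G_pole v t) i) ?_)
    rw [Finset.mem_range] at hi
    have h1 : (i : ℤ) ≤ h := by omega
    have := mul_le_mul_of_nonneg_right h1 hτ
    linarith
  rcases eq_or_lt_of_le (PlaceData.pole_nonneg (Q := Q) v x) with hw | hw
  · rw [← hw]
    have := hG e hy0
    linarith
  · have hx0 : x ≠ 0 := by
      rintro rfl
      rw [PlaceData.pole_zero] at hw
      exact lt_irrefl _ hw
    have hpx : Q.pole v x = - Q.ord v x := by
      rw [PlaceData.pole_of_ne hx0] at hw ⊢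
      rcases max_choice (0 : ℤ) (-Q.ord v x) with h1 | h1
      · rw [h1] at hw
        exact absurd hw (lt_irrefl _)
      · exact h1
    have he1 : 1 ≤ e := by
      by_contra hcon
      have he0 : e = 0 := by omega
      rw [he0] at hrel'
      rw [zero_add, Finset.sum_range_one, pow_zero, mul_one] at hrel'
      rw [he0] at hy0
      exact hy0 hrel'
    rw [Finset.sum_range_succ] at hrel'
    have h1 : aeval t (P e) * x ^ e = -∑ j ∈ range e, aeval t (P j) * x ^ j := by
      linear_combination hrel'
    have h2 : Q.G v (-(h * Q.pole v t) + ((e : ℤ) - 1) * Q.ord v x) (aeval t (P e) * x ^ e) := by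
      rw [h1]
      refine PlaceData.G_neg (PlaceData.G_sum _ _ fun j hj => ?_)
      refine PlaceData.G_mono (PlaceData.G_mul (hG j)
        (PlaceData.G_pow (PlaceData.G_self (v := v) (x := x)) j)) ?_
      rw [Finset.mem_range] at hj
      have h3 : (j : ℤ) ≤ (e : ℤ) - 1 := by omega
      have h4 : Q.ord v x ≤ 0 := by linarith
      have := mul_le_mul_of_nonpos_right h3 h4
      linarith
    have h3 := h2 (mul_ne_zero hy0 (pow_ne_zero _ hx0))
    rw [Q.ord_mul v _ _ hy0 (pow_ne_zero _ hx0), PlaceData.ord_pow hx0] at h3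
    rw [hpx]
    linarith

/-- the first inequality -/
lemma height_le (x t : K) (y : K) (hy : y ≠ 0) (h n : ℕ)
    (hb : ∀ v, Q.pole v x ≤ Q.ord v y + h * Q.pole v t)
    (hn : ∀ S : Finset Q.Pl, ∑ v ∈ S, Q.wt v * Q.pole v t ≤ n) (S : Finset Q.Pl) :
    ∑ v ∈ S, Q.wt v * Q.pole v x ≤ n * h := by
  classical
  set S' := S ∪ (Q.fin y hy).toFinset with hS'
  have h1 : ∑ v ∈ S, Q.wt v * Q.pole v x ≤ ∑ v ∈ S', Q.wt v * Q.pole v x :=
    Finset.sum_le_sum_of_subset_of_nonneg Finset.subset_union_left fun v _ _ =>
      mul_nonneg (Q.wt_nonneg v) (PlaceData.pole_nonneg v x)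
  have h2 : ∑ v ∈ S', Q.wt v * Q.pole v x ≤
      ∑ v ∈ S', Q.wt v * Q.ord v y + h * ∑ v ∈ S', Q.wt v * Q.pole v t := by
    rw [Finset.mul_sum, ← Finset.sum_add_distrib]
    refine Finset.sum_le_sum fun v _ => ?_
    have := mul_le_mul_of_nonneg_left (hb v) (Q.wt_nonneg v)
    linarith
  have h3 := Q.prod_formula y hy S' (by
    intro v hv
    have : Q.ord v y = 0 := by
      by_contra hcon
      exact hv (by simp [hS', hcon])
    rw [this])
  have h4 := mul_le_mul_of_nonneg_left (hn S') (Int.natCast_nonneg h)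
  linarith

end Root

section Deg

variable {k : Type v} {K : Type u} [Field k] [Field K] [Algebra k K]
  [Algebra (RatFunc k) K] [IsScalarTower k (RatFunc k) K] [FiniteDimensional (RatFunc k) K]

omit [FiniteDimensional (RatFunc k) K] in
lemma haev (p : k[X]) : algebraMap (RatFunc k) K (algebraMap k[X] (RatFunc k) p) =
    aeval (algebraMap (RatFunc k) K (algebraMap k[X] (RatFunc k) X)) p := by
  have h1 : ((IsScalarTower.toAlgHom k (RatFunc k) K).comp
      (IsScalarTower.toAlgHom k k[X] (RatFunc k))) =
        aeval (algebraMap (RatFunc k) K (algebraMap k[X] (RatFunc k) X)) := by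
    apply Polynomial.algHom_ext
    simp
  have h2 := congrArg (fun φ : k[X] →ₐ[k] K => φ p) h1
  simpa using h2

omit [FiniteDimensional (RatFunc k) K] in
lemma t_tr (p : k[X])
    (h : aeval (algebraMap (RatFunc k) K (algebraMap k[X] (RatFunc k) X)) p = 0) : p = 0 := by
  rw [← haev, map_eq_zero] at h
  exact (map_eq_zero_iff _ (RatFunc.algebraMap_injective k)).1 h

/-- the degree over `k(x, t)` -/
lemma finrank_le (F₁ : IntermediateField k K) (F₂ : IntermediateField F₁ K)
    (ht : algebraMap (RatFunc k) K (algebraMap k[X] (RatFunc k) X) ∈ F₂) :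
    Module.Finite F₂ K ∧ Module.finrank F₂ K ≤ Module.finrank (RatFunc k) K := by
  classical
  set t : K := algebraMap (RatFunc k) K (algebraMap k[X] (RatFunc k) X) with htd
  have hA : ∀ a : k[X], aeval t a ∈ F₂ := by
    intro a
    rw [aeval_eq_sum_range]
    refine sum_mem fun i _ => ?_
    rw [Algebra.smul_def]
    refine mul_mem ?_ (pow_mem ht i)
    rw [IsScalarTower.algebraMap_apply k F₁ K]
    exact F₂.algebraMap_mem _
  have hR : ∀ r : RatFunc k, algebraMap (RatFunc k) K r ∈ F₂ := by
    intro r
    obtain ⟨a, b, hb, rfl⟩ := exists_mk r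
    rw [map_div₀, haev a, haev b]
    exact div_mem (hA a) (hA b)
  set b := Module.finBasis (RatFunc k) K with hb
  have hspan : Submodule.span F₂ (Set.range b) = ⊤ := by
    rw [eq_top_iff]
    intro y _
    rw [← b.sum_repr y]
    refine Submodule.sum_mem _ fun i _ => ?_
    have h1 : b.repr y i • b i = (⟨algebraMap (RatFunc k) K (b.repr y i), hR _⟩ : F₂) • b i := by
      rw [Algebra.smul_def, Algebra.smul_def]
      rfl
    rw [h1]
    exact Submodule.smul_mem _ _ (Submodule.subset_span ⟨i, rfl⟩)
  refine ⟨Module.finite_def.2 (Submodule.fg_def.2 ⟨Set.range b, Set.finite_range b, hspan⟩), ?_⟩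
  have h2 := finrank_range_le_card (R := F₂) (b : Fin (Module.finrank (RatFunc k) K) → K)
  rw [Set.finrank, hspan, finrank_top, Fintype.card_fin] at h2
  exact h2

/-- the second inequality -/
lemma degree_le (x : K) (hx : ∀ p : k[X], aeval x p = 0 → p = 0) (F : ℕ → k[X]) (B n : ℕ)
    (hn : n = Module.finrank (RatFunc k) K)
    (hB : ∀ j, (F j).natDegree ≤ B) (hF : ∑ j ∈ range (n + 1),
      aeval (algebraMap (RatFunc k) K (algebraMap k[X] (RatFunc k) X)) (F j) * x ^ j = 0)
    (hFn : F n ≠ 0) :
    Module.Finite (IntermediateField.adjoin k {x}) K ∧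
      Module.finrank (IntermediateField.adjoin k {x}) K ≤ n * B := by
  classical
  set t : K := algebraMap (RatFunc k) K (algebraMap k[X] (RatFunc k) X) with htd
  have hxm : x ∈ IntermediateField.adjoin k {x} := IntermediateField.mem_adjoin_simple_self k x
  set x1 : IntermediateField.adjoin k {x} := ⟨x, hxm⟩ with hx1
  set q : (IntermediateField.adjoin k {x})[X] := ∑ j ∈ range (n + 1),
    (F j).map (algebraMap k (IntermediateField.adjoin k {x})) * C (x1 ^ j) with hq
  have hqB : q.natDegree ≤ B := by
    refine natDegree_sum_le_of_forall_le _ _ fun j _ => ?_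
    refine (natDegree_mul_C_le _ _).trans ?_
    exact natDegree_map_le.trans (hB j)
  have hqt : aeval t q = 0 := by
    rw [← hF, hq, map_sum]
    refine Finset.sum_congr rfl fun j _ => ?_
    rw [map_mul, aeval_map_algebraMap, aeval_C]
    rfl
  have hq0 : q ≠ 0 := by
    intro h0
    set i := (F n).natDegree with hi
    have h1 := congrArg (fun p => coeff p i) h0
    simp only [hq, finsetSum_coeff, coeff_mul_C, coeff_map, coeff_zero] at h1
    have h2 : aeval x (∑ j ∈ range (n + 1), C ((F j).coeff i) * X ^ j) = 0 := by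
      have h3 := congrArg (algebraMap (IntermediateField.adjoin k {x}) K) h1
      rw [map_zero, map_sum] at h3
      rw [map_sum, ← h3]
      refine Finset.sum_congr rfl fun j _ => ?_
      rw [map_mul, aeval_C, map_pow, aeval_X, map_mul, ← IsScalarTower.algebraMap_apply]
      rfl
    have h4 := congrArg (fun p => coeff p n) (hx _ h2)
    simp only [finsetSum_coeff, coeff_C_mul_X_pow, coeff_zero, Finset.sum_ite_eq,
      Finset.self_mem_range_succ, if_true] at h4
    exact hFn (leadingCoeff_eq_zero.1 h4)
  have hint : IsIntegral (IntermediateField.adjoin k {x}) t :=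
    (isAlgebraic_iff_isIntegral).1 ⟨q, hq0, hqt⟩
  have hdeg : (minpoly (IntermediateField.adjoin k {x}) t).natDegree ≤ B :=
    (natDegree_le_natDegree (minpoly.degree_le_of_ne_zero _ t hq0 hqt)).trans hqB
  have hfin1 : FiniteDimensional (IntermediateField.adjoin k {x})
      (IntermediateField.adjoin (IntermediateField.adjoin k {x}) {t}) :=
    IntermediateField.adjoin.finiteDimensional hint
  have hr1 := IntermediateField.adjoin.finrank hint
  obtain ⟨hfin2, hr2⟩ := finrank_le (IntermediateField.adjoin k {x})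
    (IntermediateField.adjoin (IntermediateField.adjoin k {x}) {t})
    (IntermediateField.mem_adjoin_simple_self _ t)
  refine ⟨Module.Finite.trans
    (IntermediateField.adjoin (IntermediateField.adjoin k {x}) {t}) K, ?_⟩
  rw [← Module.finrank_mul_finrank (IntermediateField.adjoin k {x})
    (IntermediateField.adjoin (IntermediateField.adjoin k {x}) {t}) K, hr1, mul_comm, hn]
  exact Nat.mul_le_mul hr2 hdeg

end Deg

theorem t_PD : Pool.Agent.Y706.CH.S_PD.{u, v} := by
  refine ⟨fun n => n, ?_⟩
  intro k K _ _ _ _ _ _ _ halg u hgen hu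
  obtain ⟨Q, h1, h2, h3⟩ := exists_placeData_more k K halg u hgen hu
  refine ⟨Q, h1, fun x S hS => ?_⟩
  set n := Module.finrank (RatFunc k) K with hn
  set t : K := algebraMap (RatFunc k) K (algebraMap k[X] (RatFunc k) X) with ht
  by_cases hx : ∃ c : k, x = algebraMap k K c
  · obtain ⟨c, rfl⟩ := hx
    have hp : ∀ v, Q.pole v (algebraMap k K c) = 0 := by
      intro v
      by_cases hc : c = 0
      · rw [hc, map_zero, PlaceData.pole_zero]
      · have hc' : algebraMap k K c ≠ 0 := by
          rw [_root_.map_ne_zero]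
          exact hc
        rw [PlaceData.pole_of_ne hc', Q.ord_alg v c hc]
        rfl
    have hs : ∑ v ∈ S, Q.wt v * Q.pole v (algebraMap k K c) = 0 :=
      Finset.sum_eq_zero fun v _ => by rw [hp, mul_zero]
    have hfr : Module.finrank (IntermediateField.adjoin k {algebraMap k K c}) K = 0 := by
      by_contra hcon
      have hfin : Module.Finite (IntermediateField.adjoin k {algebraMap k K c}) K :=
        Module.finite_of_finrank_pos (Nat.pos_of_ne_zero hcon)
      have hbot : IntermediateField.adjoin k {algebraMap k K c} = ⊥ := by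
        rw [IntermediateField.adjoin_simple_eq_bot_iff]
        exact IntermediateField.algebraMap_mem _ _
      have halg1 : Algebra.IsAlgebraic k (IntermediateField.adjoin k {algebraMap k K c}) := by
        rw [hbot]
        infer_instance
      have halg2 : Algebra.IsAlgebraic (IntermediateField.adjoin k {algebraMap k K c}) K :=
        Algebra.IsAlgebraic.of_finite _ _
      have halg3 : Algebra.IsAlgebraic k K :=
        Algebra.IsAlgebraic.trans k (IntermediateField.adjoin k {algebraMap k K c}) K
      obtain ⟨p, hp0, hpt⟩ := halg3.isAlgebraic t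
      exact hp0 (t_tr p hpt)
    rw [hs, hfr]
    simp
  · push Not at hx
    have hxtr : ∀ p : k[X], aeval x p = 0 → p = 0 := by
      intro p hp
      by_contra hp0
      obtain ⟨c, hc⟩ := halg x ⟨p, hp0, hp⟩
      exact hx c hc.symm
    obtain ⟨F, g1, g2, g3⟩ := h3 x hx S hS
    set B := ∑ v ∈ S, Q.wt v * Q.pole v x with hB
    have hB0 : 0 ≤ B := Finset.sum_nonneg fun v _ =>
      mul_nonneg (Q.wt_nonneg v) (PlaceData.pole_nonneg v x)
    have g2' : ∑ j ∈ range (n + 1), aeval t (F j) * x ^ j = 0 := by
      rw [← g2]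
      refine Finset.sum_congr rfl fun j _ => ?_
      rw [haev]
    obtain ⟨hfin, hdeg⟩ := degree_le x hxtr F B.toNat n hn (fun j => by have := g1 j; omega) g2' g3
    constructor
    · obtain ⟨P, J, k1, k2, k3⟩ := exists_rel (k := k) x t
      obtain ⟨y, hy, hb⟩ := root_bound Q x t (fun p hp => t_tr p hp) P J _ k1 k2 k3
      exact height_le Q x t y hy _ n hb h2 S
    · have h4 : (Module.finrank (IntermediateField.adjoin k {x}) K : ℤ) ≤ ((n * B.toNat : ℕ) : ℤ) := by
        exact_mod_cast hdeg
      rw [Nat.cast_mul, Int.toNat_of_nonneg hB0] at h4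
      exact h4

end Pool.Agent.Y362.CH
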