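import Mathlib
import Pool.Agent.W277.UD.PlF

/-!
# Place data with small loss, with the height of `t` and the equations of all elements
-/

namespace Pool.Agent.Y362.CH

open Polynomial Pool.Agent.W277.UB Pool.Agent.W277.UD Finset

universe w

/-- Norms of translates. -/
lemma norm_sub_any {F K : Type*} [Field F] [Field K] [Algebra F K] [FiniteDimensional F K] (u : K) :
    ∃ m : F[X], m.natDegree = Module.finrank F K ∧ m.Monic ∧ aeval u m = 0 ∧
      ∀ c : F, Algebra.norm F (u - algebraMap F K c) =
        (-1) ^ (Module.finrank F K) * m.eval c := by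
  classical
  set b := Module.finBasis F K
  refine ⟨(Algebra.leftMulMatrix b u).charpoly, ?_, Matrix.charpoly_monic _, ?_, fun c => ?_⟩
  · rw [Matrix.charpoly_natDegree_eq_dim, Fintype.card_fin]
  · apply Algebra.leftMulMatrix_injective b
    rw [map_zero, ← aeval_algHom_apply]
    exact Matrix.aeval_self_charpoly _
  · rw [Matrix.eval_charpoly, Algebra.norm_eq_matrix_det b, map_sub, ← neg_sub]
    rw [Matrix.det_neg, Fintype.card_fin]
    congr 3
    rw [AlgHom.commutes]
    rfl

section Main

variable {k : Type*} {K : Type w} [Field k] [CharZero k] [Field K] [Algebra k K]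
  [Algebra (RatFunc k) K] [IsScalarTower k (RatFunc k) K] [FiniteDimensional (RatFunc k) K]
  {D : Derivation k K K}

/-- The equation of an element. -/
theorem exists_F' (c1 : ChartN.{w} k k[X] (RatFunc k) K D)
    (c2 : ChartN.{w} k (InfRing k) (RatFunc k) K D) (u : K) (hu : ∀ c : k, u ≠ algebraMap k K c)
    (T1 : Finset c1.Pl) (hT1 : ∀ v, v ∉ T1 → pl (c1.ord v) u = 0)
    (T2 : Finset c2.Pl) (hT2 : ∀ v, v ∉ T2 → pl (c2.ord v) u = 0) :
    ∃ F : ℕ → k[X], (∀ j, ((F j).natDegree : ℤ) ≤
        ∑ v ∈ T1, (algebraMap k[X] (RatFunc k) (c1.g v)).intDegree * pl (c1.ord v) u +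
        ∑ v ∈ T2, (-(algebraMap (InfRing k) (RatFunc k) (c2.g v)).intDegree) *
          pl (c2.ord v) u) ∧
      ∑ j ∈ range (Module.finrank (RatFunc k) K + 1),
        algebraMap (RatFunc k) K (algebraMap k[X] (RatFunc k) (F j)) * u ^ j = 0 ∧
      F (Module.finrank (RatFunc k) K) ≠ 0 := by
  classical
  have : CharZero (RatFunc k) := charZero_of_injective_algebraMap
    (algebraMap k (RatFunc k)).injective
  obtain ⟨Den, hDen0, hDen⟩ := exists_den c1 c2 u T1 hT1 T2 hT2
  set B := ∑ v ∈ T1, (algebraMap k[X] (RatFunc k) (c1.g v)).intDegree * pl (c1.ord v) u +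
        ∑ v ∈ T2, (-(algebraMap (InfRing k) (RatFunc k) (c2.g v)).intDegree) *
          pl (c2.ord v) u with hB
  set n := Module.finrank (RatFunc k) K with hn
  obtain ⟨m, hmn, hmm, hmu, hmnorm⟩ := norm_sub_any (F := RatFunc k) u
  rw [← hn] at hmn hmnorm
  have hu0 : u ≠ 0 := by
    have := hu 0
    rwa [map_zero] at this
  -- values
  have hval : ∀ c : k, ∃ p : k[X], algebraMap k[X] (RatFunc k) p =
      algebraMap k[X] (RatFunc k) Den * m.eval (algebraMap k (RatFunc k) c) ∧
      (p.natDegree : ℤ) ≤ B := by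
    intro c
    have hne : u - algebraMap k K c ≠ 0 := sub_ne_zero.mpr (hu c)
    have hord : ∀ (o : K → ℤ), Val k o → - pl o u ≤ o (u - algebraMap k K c) := by
      intro o ho
      have h1 : GG o (- pl o u) (u - algebraMap k K c) := by
        apply ho.GG_sub
        · intro _
          unfold pl
          have := le_max_right 0 (- o u)
          linarith
        · intro h
          have hc : c ≠ 0 := by
            rintro rfl
            exact h (map_zero _)
          rw [ho.alg c hc]
          have := pl_nonneg o u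
          linarith
      exact h1 hne
    obtain ⟨p, hp1, hp2⟩ := hDen _ hne (fun v => hord _ (c1.val v)) (fun v => hord _ (c2.val v))
    have hnorm := hmnorm (algebraMap k (RatFunc k) c)
    rw [← IsScalarTower.algebraMap_apply] at hnorm
    rw [hnorm] at hp1
    refine ⟨(-1) ^ n * p, ?_, ?_⟩
    · rw [map_mul, hp1, map_pow, map_neg, map_one]
      have h1 : ((-1 : RatFunc k) ^ n) * ((-1) ^ n) = 1 := by
        rw [← mul_pow]
        simp
      linear_combination (algebraMap k[X] (RatFunc k) Den *
        m.eval (algebraMap k (RatFunc k) c)) * h1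
    · refine le_trans ?_ hp2
      rcases neg_one_pow_eq_or k[X] n with h | h
      · rw [h, one_mul]
      · rw [h, neg_one_mul, natDegree_neg]
  -- the space of polynomials of bounded degree
  let V : Submodule k (RatFunc k) := (degreeLE k (B.toNat : ℕ)).map
    (IsScalarTower.toAlgHom k k[X] (RatFunc k)).toLinearMap
  have hco : ∀ j, (C (algebraMap k[X] (RatFunc k) Den) * m).coeff j ∈ V := by
    apply coeff_mem_of_eval
    intro c
    obtain ⟨p, hp1, hp2⟩ := hval c
    rw [eval_mul, eval_C, ← hp1]
    refine ⟨p, ?_, rfl⟩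
    rw [SetLike.mem_coe, mem_degreeLE]
    refine degree_le_of_natDegree_le ?_
    omega
  have hco' : ∀ j, ∃ p : k[X], algebraMap k[X] (RatFunc k) p =
      algebraMap k[X] (RatFunc k) Den * m.coeff j ∧ p.natDegree ≤ B.toNat := by
    intro j
    obtain ⟨p, hp1, hp2⟩ := hco j
    rw [SetLike.mem_coe, mem_degreeLE] at hp1
    rw [coeff_C_mul] at hp2
    exact ⟨p, hp2, natDegree_le_of_degree_le hp1⟩
  choose F hF1 hF2 using hco'
  have hB0 : 0 ≤ B := by
    obtain ⟨p, -, hp⟩ := hval 0
    have : (0 : ℤ) ≤ p.natDegree := Int.natCast_nonneg _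
    linarith
  refine ⟨F, ?_, ?_, ?_⟩
  · intro j
    have := hF2 j
    omega
  · have h1 : aeval u m = 0 := hmu
    rw [aeval_eq_sum_range, hmn] at h1
    have h2 : ∑ j ∈ range (n + 1), algebraMap (RatFunc k) K (algebraMap k[X] (RatFunc k) (F j)) *
        u ^ j = algebraMap (RatFunc k) K (algebraMap k[X] (RatFunc k) Den) *
          ∑ j ∈ range (n + 1), m.coeff j • u ^ j := by
      rw [Finset.mul_sum]
      refine Finset.sum_congr rfl fun j _ => ?_
      rw [hF1, map_mul, Algebra.smul_def]
      ring
    rw [h2, h1, mul_zero]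
  · intro h0
    have h1 := hF1 n
    have h2 : m.coeff n = 1 := by
      rw [← hmn]
      exact hmm
    rw [h0, map_zero, h2, mul_one] at h1
    have h3 : algebraMap k[X] (RatFunc k) Den ≠ 0 := by
      rw [Ne, map_eq_zero_iff _ (RatFunc.algebraMap_injective k)]
      exact hDen0
    exact h3 h1.symm

end Main

section Global

variable (k : Type*) (K : Type w) [Field k] [CharZero k] [Field K] [Algebra k K]
  [Algebra (RatFunc k) K] [IsScalarTower k (RatFunc k) K] [FiniteDimensional (RatFunc k) K]

/-- Place data for a function field with a generator of small height, the height of `t`, and the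
equations of the elements over `k(t)`. -/
theorem exists_placeData_more (halg : ∀ x : K, IsAlgebraic k x → ∃ c : k, algebraMap k K c = x)
    (u : K) (hgen : IntermediateField.adjoin (RatFunc k) {u} = ⊤)
    (hu : ∀ c : k, u ≠ algebraMap k K c) :
    ∃ Q : PlaceData.{w} k K, (∀ S : Finset Q.Pl, (∀ v, v ∉ S → Q.pole v u = 0) →
      Q.lossT ≤ 2 * Module.finrank (RatFunc k) K * ∑ v ∈ S, Q.wt v * Q.pole v u) ∧
      (∀ S : Finset Q.Pl, ∑ v ∈ S, Q.wt v * Q.pole v
        (algebraMap (RatFunc k) K (algebraMap k[X] (RatFunc k) X)) ≤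
          Module.finrank (RatFunc k) K) ∧
      ∀ x : K, (∀ c : k, x ≠ algebraMap k K c) → ∀ S : Finset Q.Pl,
        (∀ v, v ∉ S → Q.pole v x = 0) → ∃ F : ℕ → k[X],
        (∀ j, ((F j).natDegree : ℤ) ≤ ∑ v ∈ S, Q.wt v * Q.pole v x) ∧
        ∑ j ∈ range (Module.finrank (RatFunc k) K + 1),
          algebraMap (RatFunc k) K (algebraMap k[X] (RatFunc k) (F j)) * x ^ j = 0 ∧
        F (Module.finrank (RatFunc k) K) ≠ 0 := by
  classical
  have : CharZero (RatFunc k) := charZero_of_injective_algebraMap
    (algebraMap k (RatFunc k)).injective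
  obtain ⟨D0, hD0, hDker⟩ := exists_deriv k K
  obtain ⟨c1⟩ := exists_chart1 k K D0 hD0
  obtain ⟨c2⟩ := exists_chart2 k K D0 hD0
  set n := Module.finrank (RatFunc k) K with hn
  have hn1 : 1 ≤ n := Module.finrank_pos
  have hu0 : u ≠ 0 := by
    have := hu 0
    rwa [map_zero] at this
  set t : K := algebraMap (RatFunc k) K (algebraMap k[X] (RatFunc k) X) with ht
  have hX0 : algebraMap k[X] (RatFunc k) X ≠ 0 := by
    rw [Ne, map_eq_zero_iff _ (RatFunc.algebraMap_injective k)]
    exact X_ne_zero
  have ht0 : t ≠ 0 := by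
    rw [ht, _root_.map_ne_zero]
    exact hX0
  have hD0t : D0 t = 1 := by
    rw [ht, hD0, ratD_alg, derivative_X, map_one, map_one]
  -- finite sets of places
  set T1 : Finset c1.Pl := (c1.fin t ht0).toFinset ∪ (c1.fin u hu0).toFinset with hT1
  set T2 : Finset c2.Pl := (c2.fin t ht0).toFinset ∪ (c2.fin u hu0).toFinset with hT2
  have hT1t : ∀ v, v ∉ T1 → c1.ord v t = 0 := by
    intro v hv
    by_contra h
    exact hv (by simp [hT1, h])
  have hT1u : ∀ v, v ∉ T1 → c1.ord v u = 0 := by
    intro v hv
    by_contra h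
    exact hv (by simp [hT1, h])
  have hT2t : ∀ v, v ∉ T2 → c2.ord v t = 0 := by
    intro v hv
    by_contra h
    exact hv (by simp [hT2, h])
  have hT2u : ∀ v, v ∉ T2 → c2.ord v u = 0 := by
    intro v hv
    by_contra h
    exact hv (by simp [hT2, h])
  have hpl0 : ∀ (o : K → ℤ) (x : K), o x = 0 → pl o x = 0 := by
    intro o x h
    unfold pl
    rw [h]
    simp
  obtain ⟨F, hF1, hF2, hF3⟩ := exists_F c1 c2 u hgen hu T1 (fun v hv => hpl0 _ _ (hT1u v hv)) T2
    (fun v hv => hpl0 _ _ (hT2u v hv))
  rw [← hn] at hF2 hF3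
  set B := ∑ v ∈ T1, (algebraMap k[X] (RatFunc k) (c1.g v)).intDegree * pl (c1.ord v) u +
    ∑ v ∈ T2, (-(algebraMap (InfRing k) (RatFunc k) (c2.g v)).intDegree) *
      pl (c2.ord v) u with hB
  set H := max B.toNat 2 with hH
  set N := max n 2 with hN
  -- the model
  set c : ℕ → ℕ → k := fun i j => if j ≤ n then (F j).coeff i else 0 with hc
  have haev : ∀ p : k[X], algebraMap (RatFunc k) K (algebraMap k[X] (RatFunc k) p) = aeval t p := by
    intro p
    have h1 : ((IsScalarTower.toAlgHom k (RatFunc k) K).comp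
        (IsScalarTower.toAlgHom k k[X] (RatFunc k))) = aeval t := by
      apply Polynomial.algHom_ext
      simp [ht]
    have h2 := congrArg (fun φ : k[X] →ₐ[k] K => φ p) h1
    simpa using h2
  have hinner : ∀ j ≤ n, algebraMap (RatFunc k) K (algebraMap k[X] (RatFunc k) (F j)) =
      ∑ i ∈ range (H + 1), algebraMap k K (c i j) * t ^ i := by
    intro j hj
    have h1 : (F j).natDegree < H + 1 := by
      have h2 := hF1 j
      have h3 : B.toNat ≤ H := le_max_left _ _
      omega
    rw [haev, aeval_eq_sum_range' h1]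
    refine Finset.sum_congr rfl fun i _ => ?_
    rw [hc]
    simp only [if_pos hj, Algebra.smul_def]
  have hext : ∀ g : ℕ → K, (∀ j, n < j → g j = 0) →
      ∑ j ∈ range (N + 1), g j = ∑ j ∈ range (n + 1), g j := by
    intro g hg
    symm
    apply Finset.sum_subset
    · apply Finset.range_mono
      have := le_max_left n 2
      omega
    · intro j _ hj
      apply hg
      simpa using hj
  have hrel : ∑ i ∈ range (H + 1), ∑ j ∈ range (N + 1),
      algebraMap k K (c i j) * t ^ i * u ^ j = 0 := by
    rw [Finset.sum_comm, hext]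
    · rw [← hF2]
      refine Finset.sum_congr rfl fun j hj => ?_
      have hj' : j ≤ n := by
        rw [Finset.mem_range] at hj
        omega
      rw [hinner j hj', Finset.sum_mul]
    · intro j hj
      refine Finset.sum_eq_zero fun i _ => ?_
      rw [hc]
      simp [not_le.mpr hj]
  have hFU : ∑ i ∈ range (H + 1), ∑ j ∈ range (N + 1),
      algebraMap k K (c i j) * (j : K) * t ^ i * u ^ (j - 1) =
      ∑ j ∈ range (n + 1), algebraMap (RatFunc k) K (algebraMap k[X] (RatFunc k) (F j)) *
        (j : K) * u ^ (j - 1) := by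
    rw [Finset.sum_comm, hext]
    · refine Finset.sum_congr rfl fun j hj => ?_
      have hj' : j ≤ n := by
        rw [Finset.mem_range] at hj
        omega
      rw [hinner j hj', Finset.sum_mul, Finset.sum_mul]
      refine Finset.sum_congr rfl fun i _ => ?_
      ring
    · intro j hj
      refine Finset.sum_eq_zero fun i _ => ?_
      rw [hc]
      simp [not_le.mpr hj]
  have hM := model_of_rel D0 t u c H N hrel hD0t
  set FU := ∑ i ∈ range (H + 1), ∑ j ∈ range (N + 1),
      algebraMap k K (c i j) * (j : K) * t ^ i * u ^ (j - 1) with hFUd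
  have hFU0 : FU ≠ 0 := by
    rw [hFU]
    exact hF3
  set D := FU • D0 with hD
  have hDker' : ∀ x, D x = 0 → ∃ c : k, algebraMap k K c = x := by
    intro x hx
    rw [hD, Derivation.coe_smul, Pi.smul_apply, smul_eq_mul] at hx
    exact halg x (hDker x ((mul_eq_zero.mp hx).resolve_left hFU0))
  have hfr : IntermediateField.adjoin k {t, u} = ⊤ := by
    rw [eq_top_iff]
    intro x _
    have hx : x ∈ IntermediateField.adjoin (RatFunc k) {u} := by
      rw [hgen]
      trivial
    have ht1 : t ∈ IntermediateField.adjoin k {t, u} :=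
      IntermediateField.subset_adjoin _ _ (by simp)
    have hu1 : u ∈ IntermediateField.adjoin k {t, u} :=
      IntermediateField.subset_adjoin _ _ (by simp)
    have h1 : IntermediateField.adjoin (RatFunc k) {u} ≤
        ({ (IntermediateField.adjoin k {t, u}).toSubfield with
            algebraMap_mem' := by
              intro r
              obtain ⟨a, b, hb, rfl⟩ := exists_mk r
              rw [map_div₀, haev, haev]
              have hA : ∀ a : k[X], aeval t a ∈ IntermediateField.adjoin k {t, u} := by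
                intro a
                rw [aeval_eq_sum_range]
                exact sum_mem fun i _ => IntermediateField.smul_mem _ (pow_mem ht1 i)
              have h3 : aeval t a / aeval t b ∈ IntermediateField.adjoin k {t, u} :=
                div_mem (hA a) (hA b)
              exact h3 } :
          IntermediateField (RatFunc k) K) := by
      rw [IntermediateField.adjoin_le_iff]
      intro y hy
      rw [Set.mem_singleton_iff] at hy
      subst hy
      exact hu1
    exact h1 hx
  have hH2 : 2 ≤ H := le_max_right _ _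
  have hN2 : 2 ≤ N := le_max_right _ _
  have hpl1 := fun v => place_deriv (c1.val v) (smul_dl (c1.val v) D0 (c1.dl v) FU hFU0) hM ht0 hu0
    hH2 hN2 hfr
  have hpl2 := fun v => place_deriv (c2.val v) (smul_dl (c2.val v) D0 (c2.dl v) FU hFU0) hM ht0 hu0
    hH2 hN2 hfr
  -- constants
  have hconst : ∀ x : K, x ≠ 0 → (∀ v, 0 ≤ c1.ord v x) → (∀ v, 0 ≤ c2.ord v x) →
      ∃ c : k, algebraMap k K c = x := by
    intro x hx h1 h2
    apply halg
    apply alg_of_coeff k K x (Algebra.IsIntegral.isIntegral x)
    intro n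
    apply const_of_both k
    · exact c1.integral x hx h1 n
    · obtain ⟨r, hr⟩ := c2.integral x hx h2 n
      rw [← hr]
      exact r.2
  -- iterates
  have hit : ∀ (o : K → ℤ) (l L : ℤ), 0 ≤ l → (L = 0 ∧ l = 0 ∨ L = l + 1) →
      (∀ x m, GG o m x → GG o (m - 1 - l) (D x)) → (∀ x, GG o 0 x → GG o (-l) (D x)) →
      (∀ x (j : ℕ) (m : ℤ), x ≠ 0 → (D^[j]) x ≠ 0 → m ≤ o x → m - j - j * L ≤ o ((D^[j]) x)) ∧
      (∀ x (j : ℕ), x ≠ 0 → (D^[j]) x ≠ 0 → 0 ≤ o x → - j * L ≤ o ((D^[j]) x)) := by
    intro o l L hl hL h1 h2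
    have hA : ∀ x (j : ℕ) (m : ℤ), GG o m x → GG o (m - j - j * l) ((D^[j]) x) := by
      intro x j m hx
      induction j with
      | zero => simpa using hx
      | succ j ih =>
        rw [Function.iterate_succ_apply']
        refine GG_mono (h1 _ _ ih) ?_
        push_cast
        linarith
    refine ⟨fun x j m hx hj hm => ?_, fun x j hx hj hm => ?_⟩
    · have h3 := hA x j m (fun _ => hm) hj
      have h4 : (j : ℤ) * l ≤ j * L := by
        apply mul_le_mul_of_nonneg_left _ (Int.natCast_nonneg j)
        rcases hL with ⟨h5, h6⟩ | h5 <;> linarith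
      linarith
    · rcases hL with ⟨h5, h6⟩ | h5
      · subst h5 h6
        have h3 : ∀ j : ℕ, GG o 0 ((D^[j]) x) := by
          intro j
          induction j with
          | zero => exact fun _ => hm
          | succ j ih =>
            rw [Function.iterate_succ_apply']
            simpa using h2 _ ih
        simpa using h3 j hj
      · have h3 := hA x j 0 (fun _ => hm) hj
        rw [h5]
        linarith
  let lossf : (K → ℤ) → ℤ := fun o => if pl o t = 0 ∧ pl o u = 0 then 0 else
    ((H - 2) * pl o t + (N - 2) * pl o u) + 1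
  have hH2' : (2 : ℤ) ≤ H := by exact_mod_cast hH2
  have hN2' : (2 : ℤ) ≤ N := by exact_mod_cast hN2
  have hlnn : ∀ o : K → ℤ, 0 ≤ ((H : ℤ) - 2) * pl o t + (N - 2) * pl o u := by
    intro o
    apply add_nonneg <;> apply mul_nonneg <;> first | linarith | exact pl_nonneg _ _
  have hlossf : ∀ o : K → ℤ, (lossf o = 0 ∧ ((H : ℤ) - 2) * pl o t + (N - 2) * pl o u = 0 ∨
      lossf o = (((H : ℤ) - 2) * pl o t + (N - 2) * pl o u) + 1) := by
    intro o
    by_cases h : pl o t = 0 ∧ pl o u = 0
    · left
      refine ⟨by simp only [lossf, if_pos h], ?_⟩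
      rw [h.1, h.2]
      simp
    · right
      simp only [lossf, if_neg h]
  have hlossnn : ∀ o : K → ℤ, 0 ≤ lossf o := by
    intro o
    rcases hlossf o with h | h
    · rw [h.1]
    · rw [h]
      have := hlnn o
      linarith
  have hlossle : ∀ o : K → ℤ, lossf o ≤ ((H : ℤ) - 1) * pl o t + (N - 1) * pl o u := by
    intro o
    have h1 := pl_nonneg o t
    have h2 := pl_nonneg o u
    by_cases h : pl o t = 0 ∧ pl o u = 0
    · simp only [lossf, if_pos h]
      rw [h.1, h.2]
      simp
    · simp only [lossf, if_neg h]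
      have h3 : 1 ≤ pl o t + pl o u := by
        by_contra hcon
        exact h ⟨by linarith, by linarith⟩
      linarith
  have hdl1 := fun v => hit (c1.ord v) _ _ (hlnn _) (hlossf _) (hpl1 v).1 (hpl1 v).2
  have hdl2 := fun v => hit (c2.ord v) _ _ (hlnn _) (hlossf _) (hpl2 v).1 (hpl2 v).2
  let ord : c1.Pl ⊕ c2.Pl → K → ℤ := Sum.elim c1.ord c2.ord
  let wt : c1.Pl ⊕ c2.Pl → ℤ := Sum.elim
    (fun v => (algebraMap k[X] (RatFunc k) (c1.g v)).intDegree)
    (fun v => -(algebraMap (InfRing k) (RatFunc k) (c2.g v)).intDegree)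
  let loss : c1.Pl ⊕ c2.Pl → ℤ := fun v => lossf (ord v)
  let lossS : Finset (c1.Pl ⊕ c2.Pl) := T1.disjSum T2
  have hwt1 : ∀ v, 1 ≤ wt v := by
    rintro (v | v)
    · exact pos_poly k _ (c1.g_ne v) (c1.g_nu v)
    · exact pos_inf k _ (c2.g_ne v) (c2.g_nu v)
  have hSt : ∀ v, v ∉ lossS → ord v t = 0 := by
    rintro (v | v) hv
    · simp only [lossS, Finset.inl_mem_disjSum] at hv
      exact hT1t v hv
    · simp only [lossS, Finset.inr_mem_disjSum] at hv
      exact hT2t v hv
  have hSu : ∀ v, v ∉ lossS → ord v u = 0 := by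
    rintro (v | v) hv
    · simp only [lossS, Finset.inl_mem_disjSum] at hv
      exact hT1u v hv
    · simp only [lossS, Finset.inr_mem_disjSum] at hv
      exact hT2u v hv
  have hBsum : ∑ v ∈ lossS, wt v * pl (ord v) u = B := by
    rw [Finset.sum_disjSum]
    rfl
  -- the height of `t`
  have htsum : ∑ v ∈ lossS, wt v * pl (ord v) t = n := by
    rw [Finset.sum_disjSum]
    have h1 : ∑ v ∈ T1, wt (Sum.inl v) * pl (ord (Sum.inl v)) t = 0 := by
      refine Finset.sum_eq_zero fun v _ => ?_
      have h2 : 0 ≤ c1.ord v t := c1.ord_R v X X_ne_zero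
      have h3 : pl (ord (Sum.inl v)) t = 0 := by
        unfold pl
        apply max_eq_left
        change - c1.ord v t ≤ 0
        linarith
      rw [h3, mul_zero]
    have h2 : ∑ v ∈ T2, wt (Sum.inr v) * pl (ord (Sum.inr v)) t =
        - ∑ v ∈ T2, (-(algebraMap (InfRing k) (RatFunc k) (c2.g v)).intDegree) * c2.ord v t := by
      rw [← Finset.sum_neg_distrib]
      refine Finset.sum_congr rfl fun v _ => ?_
      have h3 : 0 ≤ c2.ord v t⁻¹ := by
        have h4 : (algebraMap k[X] (RatFunc k) X)⁻¹ ∈ InfRing k := by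
          rw [mem_infRing]
          right
          rw [RatFunc.intDegree_inv, RatFunc.intDegree_polynomial, natDegree_X]
          norm_num
        have h5 := c2.ord_R v ⟨_, h4⟩ (by
          intro h
          have h6 := congrArg Subtype.val h
          exact inv_ne_zero hX0 h6)
        rw [ValuationSubring.algebraMap_apply] at h5
        simp only [map_inv₀] at h5
        exact h5
      rw [(c2.val v).inv ht0] at h3
      have h4 : pl (ord (Sum.inr v)) t = - c2.ord v t := by
        unfold pl
        exact max_eq_right h3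
      rw [h4]
      change (-(algebraMap (InfRing k) (RatFunc k) (c2.g v)).intDegree) * (-c2.ord v t) = _
      ring
    rw [h1, h2, c2.sum (addFn_inf k) t ht0 T2 hT2t, zero_add, neg_neg, ht,
      Algebra.norm_algebraMap, AddFn_pow (addFn_poly k) hX0, RatFunc.intDegree_polynomial,
      natDegree_X]
    simp [hn]
  -- product formula
  have hprod : ∀ x, x ≠ 0 → ∀ S : Finset (c1.Pl ⊕ c2.Pl), (∀ v, v ∉ S → 0 ≤ ord v x) →
      ∑ v ∈ S, wt v * ord v x ≤ 0 := by
    intro x hx S hS
    set T1 := S.toLeft ∪ (c1.fin x hx).toFinset with hT1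
    set T2 := S.toRight ∪ (c2.fin x hx).toFinset with hT2
    have h1 := c1.sum (addFn_poly k) x hx T1 (by
      intro v hv
      by_contra h
      exact hv (by simp [hT1, h]))
    have h2 := c2.sum (addFn_inf k) x hx T2 (by
      intro v hv
      by_contra h
      exact hv (by simp [hT2, h]))
    have h3 : ∑ v ∈ T1.disjSum T2, wt v * ord v x = 0 := by
      rw [Finset.sum_disjSum]
      have h4 : ∑ v ∈ T1, wt (Sum.inl v) * ord (Sum.inl v) x =
          ∑ v ∈ T1, (algebraMap k[X] (RatFunc k) (c1.g v)).intDegree * c1.ord v x := rfl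
      have h5 : ∑ v ∈ T2, wt (Sum.inr v) * ord (Sum.inr v) x =
          ∑ v ∈ T2, (-(algebraMap (InfRing k) (RatFunc k) (c2.g v)).intDegree) * c2.ord v x :=
        rfl
      rw [h4, h5, h1, h2]
      ring
    have hST : S ⊆ T1.disjSum T2 := by
      rintro (v | v) hv
      · rw [Finset.inl_mem_disjSum]
        simp [hT1, hv]
      · rw [Finset.inr_mem_disjSum]
        simp [hT2, hv]
    rw [← Finset.sum_sdiff hST] at h3
    have h6 : 0 ≤ ∑ v ∈ T1.disjSum T2 \ S, wt v * ord v x :=
      Finset.sum_nonneg fun v hv => mul_nonneg (zero_le_one.trans (hwt1 v))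
        (hS v (Finset.mem_sdiff.mp hv).2)
    linarith
  let Q : PlaceData.{w} k K := {
    Pl := c1.Pl ⊕ c2.Pl
    ord := ord
    wt := wt
    wt_nonneg := fun v => zero_le_one.trans (hwt1 v)
    wt_one := hwt1
    ord_mul := by
      rintro (v | v) x y hx hy
      · exact (c1.val v).mul x y hx hy
      · exact (c2.val v).mul x y hx hy
    ord_add := by
      rintro (v | v) x y m hx hy hxy h1 h2
      · exact (c1.val v).add x y m hx hy hxy h1 h2
      · exact (c2.val v).add x y m hx hy hxy h1 h2
    ord_alg := by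
      rintro (v | v) c hc
      · exact (c1.val v).alg c hc
      · exact (c2.val v).alg c hc
    fin := by
      intro x hx
      have h1 : {v | ord v x ≠ 0} ⊆
          Sum.inl '' {v | c1.ord v x ≠ 0} ∪ Sum.inr '' {v | c2.ord v x ≠ 0} := by
        rintro (v | v) hv
        · left
          exact ⟨v, hv, rfl⟩
        · right
          exact ⟨v, hv, rfl⟩
      exact (((c1.fin x hx).image _).union ((c2.fin x hx).image _)).subset h1
    prod_formula := hprod
    const := by
      intro x hx h
      exact hconst x hx (fun v => h (Sum.inl v)) (fun v => h (Sum.inr v))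
    D := D
    D_ker := hDker'
    loss := loss
    loss_nonneg := fun v => hlossnn _
    lossS := lossS
    loss_supp := by
      intro v hv
      have h1 : pl (ord v) t = 0 ∧ pl (ord v) u = 0 :=
        ⟨hpl0 _ _ (hSt v hv), hpl0 _ _ (hSu v hv)⟩
      simp only [loss, lossf, if_pos h1]
    lossT := ∑ v ∈ lossS, wt v * loss v
    loss_sum := le_rfl
    D_ord := by
      rintro (v | v) x j m hx h1 h2
      · exact (hdl1 v).1 x j m hx h1 h2
      · exact (hdl2 v).1 x j m hx h1 h2
    D_ord' := by
      rintro (v | v) x j hx h1 h2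
      · exact (hdl1 v).2 x j hx h1 h2
      · exact (hdl2 v).2 x j hx h1 h2 }
  refine ⟨Q, ?_, ?_, ?_⟩
  rotate_left
  · intro S
    have hpt : ∀ v : Q.Pl, Q.pole v t = pl (ord v) t := by
      intro v
      rw [PlaceData.pole_of_ne ht0]
      rfl
    have h1 : ∑ v ∈ S, Q.wt v * Q.pole v t ≤ ∑ v ∈ S ∪ lossS, Q.wt v * Q.pole v t :=
      Finset.sum_le_sum_of_subset_of_nonneg Finset.subset_union_left fun v _ _ =>
        mul_nonneg (Q.wt_nonneg v) (PlaceData.pole_nonneg v t)
    have h2 : ∑ v ∈ lossS, wt v * pl (ord v) t = ∑ v ∈ S ∪ lossS, wt v * pl (ord v) t := by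
      apply Finset.sum_subset Finset.subset_union_right
      intro v _ hv
      rw [hpl0 _ _ (hSt v hv), mul_zero]
    have h3 : ∑ v ∈ S ∪ lossS, Q.wt v * Q.pole v t = ∑ v ∈ S ∪ lossS, wt v * pl (ord v) t := by
      refine Finset.sum_congr rfl fun v _ => ?_
      rw [hpt]
    rw [h3, ← h2, htsum] at h1
    exact h1
  · intro x hx S hS
    have hx0 : x ≠ 0 := by
      have := hx 0
      rwa [map_zero] at this
    have hpx : ∀ v : Q.Pl, Q.pole v x = pl (ord v) x := by
      intro v
      rw [PlaceData.pole_of_ne hx0]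
      rfl
    obtain ⟨F, g1, g2, g3⟩ := exists_F' c1 c2 x hx S.toLeft (fun v hv => by
        have h1 := hS (Sum.inl v) (by simpa using hv)
        rw [hpx] at h1
        exact h1) S.toRight (fun v hv => by
        have h1 := hS (Sum.inr v) (by simpa using hv)
        rw [hpx] at h1
        exact h1)
    refine ⟨F, fun j => ?_, g2, g3⟩
    refine (g1 j).trans (le_of_eq ?_)
    have h1 : ∑ v ∈ S, Q.wt v * Q.pole v x = ∑ v ∈ S.toLeft.disjSum S.toRight, wt v * pl (ord v) x := by
      rw [Finset.toLeft_disjSum_toRight]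
      refine Finset.sum_congr rfl fun v _ => ?_
      rw [hpx]
    rw [h1, Finset.sum_disjSum]
    rfl
  intro S hS
  have hpole : ∀ v : Q.Pl, Q.pole v u = pl (ord v) u := by
    intro v
    rw [PlaceData.pole_of_ne hu0]
    rfl
  have hsumS : ∑ v ∈ S, Q.wt v * Q.pole v u = B := by
    rw [← hBsum]
    have h1 : ∑ v ∈ S, Q.wt v * Q.pole v u = ∑ v ∈ S ∪ lossS, Q.wt v * Q.pole v u := by
      apply Finset.sum_subset Finset.subset_union_left
      intro v _ hv
      rw [hS v hv, mul_zero]
    have h2 : ∑ v ∈ lossS, wt v * pl (ord v) u = ∑ v ∈ S ∪ lossS, wt v * pl (ord v) u := by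
      apply Finset.sum_subset Finset.subset_union_right
      intro v _ hv
      rw [hpl0 _ _ (hSu v hv), mul_zero]
    rw [h1, h2]
    refine Finset.sum_congr rfl fun v _ => ?_
    rw [hpole]
  rw [hsumS]
  have hlT : Q.lossT ≤ ((H : ℤ) - 1) * n + (N - 1) * B := by
    have h1 : Q.lossT = ∑ v ∈ lossS, wt v * loss v := rfl
    rw [h1, ← htsum, ← hBsum, Finset.mul_sum, Finset.mul_sum, ← Finset.sum_add_distrib]
    refine Finset.sum_le_sum fun v _ => ?_
    have h2 := mul_le_mul_of_nonneg_left (hlossle (ord v)) (zero_le_one.trans (hwt1 v))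
    have h3 : loss v = lossf (ord v) := rfl
    rw [h3]
    linarith
  have hB1 : 1 ≤ B := by
    by_contra hcon
    have hall : ∀ v, pl (ord v) u = 0 := by
      intro v
      by_cases hv : v ∈ lossS
      · have h1 : wt v * pl (ord v) u ≤ B := by
          rw [← hBsum]
          exact Finset.single_le_sum (f := fun v => wt v * pl (ord v) u)
            (fun v _ => mul_nonneg (zero_le_one.trans (hwt1 v)) (pl_nonneg _ _)) hv
        have h2 := pl_nonneg (ord v) u
        have h3 := mul_le_mul_of_nonneg_right (hwt1 v) h2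
        linarith
      · exact hpl0 _ _ (hSu v hv)
    have hall' : ∀ v, 0 ≤ ord v u := by
      intro v
      have h1 := hall v
      unfold pl at h1
      have h2 := le_max_right 0 (- ord v u)
      linarith
    obtain ⟨c, hc⟩ := hconst u hu0 (fun v => hall' (Sum.inl v)) (fun v => hall' (Sum.inr v))
    exact hu c hc.symm
  have hHB : (H : ℤ) - 1 ≤ B := by omega
  have hNn : (N : ℤ) - 1 ≤ n := by omega
  have hn0 : (0 : ℤ) ≤ n := Int.natCast_nonneg n
  have h1 := mul_le_mul_of_nonneg_right hHB hn0
  have h2 := mul_le_mul_of_nonneg_right hNn (show 0 ≤ B by linarith)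
  linarith

end Global

end Pool.Agent.Y362.CH
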